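import Pool.Agent.helper17.Sch.LI
import Pool.Agent.helper17.Sch.CH
import Pool.Agent.helper41.Sch.VO
import Pool.Agent.helper38.Sch.CB
import Pool.Agent.helper3.Sch.TC
import Pool.Agent.helper76.Sch.CA

open scoped Pointwise ContDiff
open MeasureTheory Set Filter Topology

namespace Pool.Agent.helper41.Sch

/-- flatness in a chart is flatness in space -/
theorem LO_flat_iff (b : OrthonormalBasis (Fin 3) ℝ E3) (K : Set E3) (v : P) :
    FlatAt (chart b K) 0 v ↔ FlatE (hE K) (b 2) (v.1 • b 0 + v.2 • b 1) := by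
  unfold FlatAt FlatE chart
  constructor
  · rintro ⟨ε, hε, h⟩
    refine ⟨ε, hε, ?_⟩
    have e1 : b 2 + ε • (v.1 • b 0 + v.2 • b 1) = (0 + ε • v).1 • b 0 + (0 + ε • v).2 • b 1 + b 2 := by
      simp only [zero_add, Prod.smul_fst, Prod.smul_snd, smul_eq_mul, smul_add, smul_smul]
      abel
    have e2 : b 2 - ε • (v.1 • b 0 + v.2 • b 1) = (0 - ε • v).1 • b 0 + (0 - ε • v).2 • b 1 + b 2 := by
      simp only [zero_sub, Prod.fst_neg, Prod.snd_neg, Prod.smul_fst, Prod.smul_snd, smul_eq_mul, smul_add, smul_smul, neg_smul]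
      abel
    have e3 : b 2 = (0 : P).1 • b 0 + (0 : P).2 • b 1 + b 2 := by simp
    rw [e1, e2, h, ← e3]
  · rintro ⟨ε, hε, h⟩
    refine ⟨ε, hε, ?_⟩
    have e1 : b 2 + ε • (v.1 • b 0 + v.2 • b 1) = (0 + ε • v).1 • b 0 + (0 + ε • v).2 • b 1 + b 2 := by
      simp only [zero_add, Prod.smul_fst, Prod.smul_snd, smul_eq_mul, smul_add, smul_smul]
      abel
    have e2 : b 2 - ε • (v.1 • b 0 + v.2 • b 1) = (0 - ε • v).1 • b 0 + (0 - ε • v).2 • b 1 + b 2 := by
      simp only [zero_sub, Prod.fst_neg, Prod.snd_neg, Prod.smul_fst, Prod.smul_snd, smul_eq_mul, smul_add, smul_smul, neg_smul]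
      abel
    have e3 : b 2 = (0 : P).1 • b 0 + (0 : P).2 • b 1 + b 2 := by simp
    rw [← e1, ← e2, h, ← e3]

theorem LO_chart_LC (b : OrthonormalBasis (Fin 3) ℝ E3) {K : Set E3} (hK : IsBody K) :
    LC (chart b K) := by
  have h := coord_facts b
  obtain ⟨h1, -, -, -, -, -, h7⟩ := h
  rw [← h7 K hK]
  exact F_LC (h1 K hK)

/-- points of the sphere seen near `b 2` -/
theorem LO_near (b : OrthonormalBasis (Fin 3) ℝ E3) {U : Set E3} (hU : IsOpen U) (hbU : b 2 ∈ U) :
    ∃ r > 0, ∀ φ : P → ℝ, tsupport φ ⊆ Metric.ball 0 r →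
      ∀ v : E3, ‖v‖ = 1 → v ∉ U → lift b φ v = 0 := by
  have hcont : ContinuousAt (fun z : P => (‖z.1 • b 0 + z.2 • b 1 + b 2‖)⁻¹ • (z.1 • b 0 + z.2 • b 1 + b 2)) 0 := by
    refine ContinuousAt.fun_smul ?_ ?_
    · refine ContinuousAt.inv₀ ?_ ?_
      · fun_prop
      · simp
    · fun_prop
  have h0 : (fun z : P => (‖z.1 • b 0 + z.2 • b 1 + b 2‖)⁻¹ • (z.1 • b 0 + z.2 • b 1 + b 2)) 0 = b 2 := by
    simp
  have hmem : U ∈ 𝓝 ((fun z : P => (‖z.1 • b 0 + z.2 • b 1 + b 2‖)⁻¹ • (z.1 • b 0 + z.2 • b 1 + b 2)) 0) := by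
    rw [h0]; exact hU.mem_nhds hbU
  obtain ⟨r, hr, hball⟩ := Metric.mem_nhds_iff.1 (hcont hmem)
  refine ⟨r, hr, fun φ hφ v hv hvU => ?_⟩
  unfold lift tilde
  split_ifs with hs
  · have hphi : φ ((coord b v).2⁻¹ • (coord b v).1) = 0 := by
      by_contra hne
      have hz := hφ (subset_tsupport φ (Function.mem_support.2 hne))
      have hzU := hball hz
      apply hvU
      have hrep : v = (coord b v).2 • (((coord b v).2⁻¹ • (coord b v).1).1 • b 0 +
          ((coord b v).2⁻¹ • (coord b v).1).2 • b 1 + b 2) := by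
        have h3 : v = inner ℝ (b 0) v • b 0 + inner ℝ (b 1) v • b 1 + inner ℝ (b 2) v • b 2 := by
          conv_lhs => rw [← b.sum_repr' v]
          rw [Fin.sum_univ_three]
        have hs' : (coord b v).2 ≠ 0 := hs.ne'
        conv_lhs => rw [h3]
        simp only [Prod.smul_fst, Prod.smul_snd, smul_eq_mul, smul_add, smul_smul]
        rw [mul_inv_cancel_left₀ hs', mul_inv_cancel_left₀ hs']
        rfl
      set w : E3 := ((coord b v).2⁻¹ • (coord b v).1).1 • b 0 +
          ((coord b v).2⁻¹ • (coord b v).1).2 • b 1 + b 2 with hw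
      have hn : ‖w‖ = (coord b v).2⁻¹ := by
        have h4 : ‖v‖ = (coord b v).2 * ‖w‖ := by
          conv_lhs => rw [hrep]
          rw [norm_smul, Real.norm_eq_abs, abs_of_pos hs]
        rw [hv] at h4
        field_simp
        linarith
      have : v = ‖w‖⁻¹ • w := by
        rw [hn, inv_inv]; exact hrep
      rw [this]
      exact hzU
    rw [hphi, mul_zero]
  · rfl

theorem LO_basis {u w : E3} (hu : ‖u‖ = 1) (hw : ‖w‖ = 1) (huw : inner ℝ w u = (0 : ℝ)) :
    ∃ b : OrthonormalBasis (Fin 3) ℝ E3, b 2 = u ∧ b 1 = w := by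
  have huw' : inner ℝ u w = (0 : ℝ) := by rw [real_inner_comm]; exact huw
  have hv : Orthonormal ℝ (({1, 2} : Set (Fin 3)).domRestrict (![0, w, u] : Fin 3 → E3)) := by
    constructor
    · rintro ⟨i, hi⟩
      show ‖(![0, w, u] : Fin 3 → E3) i‖ = 1
      rcases hi with rfl | hi
      · exact hw
      · rcases hi with rfl
        exact hu
    · rintro ⟨i, hi⟩ ⟨j, hj⟩ hij
      show inner ℝ ((![0, w, u] : Fin 3 → E3) i) ((![0, w, u] : Fin 3 → E3) j) = (0 : ℝ)
      rcases hi with rfl | hi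
      · rcases hj with rfl | hj
        · exact absurd rfl hij
        · rcases hj with rfl
          exact huw
      · rcases hi with rfl
        rcases hj with rfl | hj
        · exact huw'
        · rcases hj with rfl
          exact absurd rfl hij
  obtain ⟨b, hb⟩ := hv.exists_orthonormalBasis_extension_of_card_eq (by simp)
  exact ⟨b, hb 2 (by simp), hb 1 (by simp)⟩

theorem LO_basis1 {u : E3} (hu : ‖u‖ = 1) :
    ∃ b : OrthonormalBasis (Fin 3) ℝ E3, b 2 = u := by
  have hv : Orthonormal ℝ (({2} : Set (Fin 3)).domRestrict (![0, 0, u] : Fin 3 → E3)) := by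
    constructor
    · rintro ⟨i, hi⟩
      show ‖(![0, 0, u] : Fin 3 → E3) i‖ = 1
      rcases hi with rfl
      exact hu
    · rintro ⟨i, hi⟩ ⟨j, hj⟩ hij
      rcases hi with rfl
      rcases hj with rfl
      exact absurd rfl hij
  obtain ⟨b, hb⟩ := hv.exists_orthonormalBasis_extension_of_card_eq (by simp)
  exact ⟨b, hb 2 (by simp)⟩

theorem LO_hB (b : OrthonormalBasis (Fin 3) ℝ E3) {K L : Set E3} (hK : IsBody K) (hL : IsBody L)
    {S : Measure E3} (hS : IsMixedArea K L S) {U : Set E3} (hU : IsOpen U) (hbU : b 2 ∈ U)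
    (hSU : S U = 0) : ∃ r > 0, ∀ φ, Test φ → tsupport φ ⊆ Metric.ball 0 r →
      B φ (chart b K) (chart b L) = 0 := by
  obtain ⟨r, hr, h⟩ := LO_near b hU hbU
  refine ⟨r, hr, fun φ hφ hφr => ?_⟩
  rw [← local_identity b hK hL hS hφ]
  apply integral_eq_zero_of_ae
  have h1 : ∀ᵐ v ∂S, v ∉ U := by
    rw [ae_iff]; simpa using hSU
  have h2 : ∀ᵐ v ∂S, v ∈ Metric.sphere (0 : E3) 1 := by
    rw [ae_iff]; exact hS.2.1
  filter_upwards [h1, h2] with v hv1 hv2
  exact h φ hφr v (by simpa using hv2) hv1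

theorem lower {K L : Set E3} (hK : IsBody K) (hL : IsBody L) {S : Measure E3}
    (hS : IsMixedArea K L S) {u : E3} (hu : u ∈ extremeDirections K L) {U : Set E3}
    (hU : IsOpen U) (huU : u ∈ U) : S U ≠ 0 := by
  intro hSU
  have husph : u ∈ Metric.sphere (0 : E3) 1 := hu.1
  have hn : ‖u‖ = 1 := by simpa using husph
  have hu0 : u ≠ 0 := by rintro rfl; simp at hn
  obtain ⟨⟨v1, hv1⟩, ⟨v2, hv2⟩, hmul⟩ := (mem_extreme_iff hK hL u husph).1 hu
  obtain ⟨WK, huK, hWK, -⟩ := touching_span hK hu0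
  obtain ⟨WL, huL, hWL, -⟩ := touching_span hL hu0
  by_cases hcase : ∀ v ∈ WK, ∃ t : ℝ, v = t • u
  · -- point case
    obtain ⟨b, hb⟩ := LO_basis1 hn
    obtain ⟨r, hr, hB⟩ := LO_hB b hK hL hS hU (by rw [hb]; exact huU) hSU
    have hflat : ∀ v : P, FlatAt (chart b L) 0 v := by
      apply case_point (LO_chart_LC b hK) (LO_chart_LC b hL) hr hB
      intro v hv hfl
      rw [LO_flat_iff, hb] at hfl
      obtain ⟨t, ht⟩ := hcase _ ((hWK _).2 hfl)
      apply hv
      have h0 : inner ℝ (b 0) (v.1 • b 0 + v.2 • b 1) = inner ℝ (b 0) (t • u) := by rw [ht]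
      have h1 : inner ℝ (b 1) (v.1 • b 0 + v.2 • b 1) = inner ℝ (b 1) (t • u) := by rw [ht]
      rw [← hb] at h0 h1
      simp only [inner_add_right, inner_smul_right, b.inner_eq_ite] at h0 h1
      ext
      · simpa using h0
      · simpa using h1
    apply hv2
    rw [← hWL]
    have hv2' : v2 = (inner ℝ (b 0) v2 • b 0 + inner ℝ (b 1) v2 • b 1) + inner ℝ (b 2) v2 • b 2 := by
      conv_lhs => rw [← b.sum_repr' v2]
      rw [Fin.sum_univ_three]
    rw [hv2']
    apply WL.add_mem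
    · rw [hWL, ← hb]
      exact (LO_flat_iff b L (inner ℝ (b 0) v2, inner ℝ (b 1) v2)).1 (hflat _)
    · rw [hb]; exact WL.smul_mem _ huL
  · push Not at hcase
    obtain ⟨v, hvW, hv⟩ := hcase
    set w0 : E3 := v - inner ℝ u v • u with hw0
    have hw0W : w0 ∈ WK := WK.sub_mem hvW (WK.smul_mem _ huK)
    have hw0n : w0 ≠ 0 := by
      intro h
      exact hv _ (sub_eq_zero.1 h)
    have hw0n' : ‖w0‖ ≠ 0 := norm_ne_zero_iff.2 hw0n
    set w : E3 := ‖w0‖⁻¹ • w0 with hw
    have hwn : ‖w‖ = 1 := by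
      rw [hw, norm_smul, norm_inv, norm_norm, inv_mul_cancel₀ hw0n']
    have hwu : inner ℝ w u = 0 := by
      rw [hw, real_inner_smul_left, hw0, inner_sub_left, real_inner_smul_left,
        real_inner_self_eq_norm_sq, hn, real_inner_comm]
      simp
    obtain ⟨b, hb, hb1⟩ := LO_basis hn hwn hwu
    obtain ⟨r, hr, hB⟩ := LO_hB b hK hL hS hU (by rw [hb]; exact huU) hSU
    have hwW : w ∈ WK := WK.smul_mem _ hw0W
    have hfK : FlatAt (chart b K) 0 ((0 : ℝ), (1 : ℝ)) := by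
      rw [LO_flat_iff, hb, ← hWK]
      simpa [hb1] using hwW
    have hnK : ∃ v, ¬ FlatAt (chart b K) 0 v := by
      by_contra hall
      push Not at hall
      apply hv1
      rw [← hWK]
      have hv1' : v1 = (inner ℝ (b 0) v1 • b 0 + inner ℝ (b 1) v1 • b 1) + inner ℝ (b 2) v1 • b 2 := by
        conv_lhs => rw [← b.sum_repr' v1]
        rw [Fin.sum_univ_three]
      rw [hv1']
      apply WK.add_mem
      · rw [hWK, ← hb]
        exact (LO_flat_iff b K (inner ℝ (b 0) v1, inner ℝ (b 1) v1)).1 (hall _)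
      · rw [hb]; exact WK.smul_mem _ huK
    have hfL := case_line (LO_chart_LC b hK) (LO_chart_LC b hL) hr hB hfK hnK
    rw [LO_flat_iff, hb] at hfL
    have hfL' : FlatE (hE L) u w := by simpa [hb1] using hfL
    obtain ⟨t, ht⟩ := hmul w ((hWK _).1 hwW) hfL'
    have h5 : inner ℝ w w = (1 : ℝ) := by rw [real_inner_self_eq_norm_sq, hwn]; norm_num
    rw [ht, inner_smul_right] at h5
    rw [ht] at hwu
    rw [hwu] at h5
    simp at h5

end Pool.Agent.helper41.Sch
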