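import Pool.Agent.helper61.Sch.MO
import Pool.Agent.helper95.Sch.SM
import Pool.Agent.helper79.Sch.SP1

open scoped Pointwise ContDiff
open MeasureTheory Set Filter Topology

namespace Pool.Agent.helper41.Sch

theorem PO2_d_eq {f : P → ℝ} (hf : ContDiff ℝ ∞ f) (v : P) :
    (fun x => lineDeriv ℝ f x v) = fun x => fderiv ℝ f x v := by
  ext x
  exact (hf.differentiable (by simp) x).lineDeriv_eq_fderiv

theorem PO2_d1_smooth {f : P → ℝ} (hf : ContDiff ℝ ∞ f) : ContDiff ℝ ∞ (d1 f) := by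
  have : d1 f = fun x => fderiv ℝ f x ((1 : ℝ), (0 : ℝ)) := PO2_d_eq hf _
  rw [this]
  exact (hf.fderiv_right (m := ∞) (by simp)).clm_apply contDiff_const

theorem PO2_d2_smooth {f : P → ℝ} (hf : ContDiff ℝ ∞ f) : ContDiff ℝ ∞ (d2 f) := by
  have : d2 f = fun x => fderiv ℝ f x ((0 : ℝ), (1 : ℝ)) := PO2_d_eq hf _
  rw [this]
  exact (hf.fderiv_right (m := ∞) (by simp)).clm_apply contDiff_const

theorem PO2_line_zero {f : P → ℝ} {O : Set P} (hO : IsOpen O) (h : ∀ x ∈ O, f x = 0) (v : P)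
    {x : P} (hx : x ∈ O) : lineDeriv ℝ f x v = 0 := by
  have : f =ᶠ[𝓝 x] fun _ => (0 : ℝ) := by
    filter_upwards [hO.mem_nhds hx] with y hy using h y hy
  rw [this.lineDeriv_eq]
  simp [lineDeriv]

theorem PO2_second_zero {φ : P → ℝ} {x : P} (hx : x ∉ tsupport φ) :
    d1 (d1 φ) x = 0 ∧ d2 (d2 φ) x = 0 ∧ d1 (d2 φ) x = 0 := by
  have hO : IsOpen (tsupport φ)ᶜ := (isClosed_tsupport φ).isOpen_compl
  have h0 : ∀ y ∈ (tsupport φ)ᶜ, φ y = 0 := fun y hy => image_eq_zero_of_notMem_tsupport hy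
  have h1 : ∀ y ∈ (tsupport φ)ᶜ, d1 φ y = 0 := fun y hy => PO2_line_zero hO h0 _ hy
  have h2 : ∀ y ∈ (tsupport φ)ᶜ, d2 φ y = 0 := fun y hy => PO2_line_zero hO h0 _ hy
  exact ⟨PO2_line_zero hO h1 _ hx, PO2_line_zero hO h2 _ hx, PO2_line_zero hO h2 _ hx⟩

theorem PO2_cs {φ : P → ℝ} (hφ : HasCompactSupport φ) {F : P → ℝ}
    (hF : ∀ x, x ∉ tsupport φ → F x = 0) : HasCompactSupport F :=
  HasCompactSupport.intro hφ (fun x hx => hF x hx)

/-- the quadratic function -/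
noncomputable def PO2_q (x : P) : ℝ := (x.1 ^ 2 + x.2 ^ 2) / 2

theorem PO2_q_smooth : ContDiff ℝ ∞ PO2_q := by
  unfold PO2_q
  fun_prop

theorem PO2_q_d1 : d1 PO2_q = fun x => x.1 := by
  ext x
  have h : HasLineDerivAt ℝ PO2_q x.1 x ((1 : ℝ), (0 : ℝ)) := by
    unfold HasLineDerivAt PO2_q
    have h1 : HasDerivAt (fun t : ℝ => ((x.1 + t) ^ 2 + x.2 ^ 2) / 2) x.1 0 := by
      have := (((hasDerivAt_id (0 : ℝ)).const_add x.1).pow 2).add_const (x.2 ^ 2) |>.div_const 2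
      exact (this : HasDerivAt (fun t : ℝ => ((x.1 + t) ^ 2 + x.2 ^ 2) / 2) _ 0).congr_deriv
        (by simp)
    refine h1.congr_of_eventuallyEq (Eventually.of_forall fun t => ?_)
    simp
  exact h.lineDeriv

theorem PO2_q_d2 : d2 PO2_q = fun x => x.2 := by
  ext x
  have h : HasLineDerivAt ℝ PO2_q x.2 x ((0 : ℝ), (1 : ℝ)) := by
    unfold HasLineDerivAt PO2_q
    have h1 : HasDerivAt (fun t : ℝ => (x.1 ^ 2 + (x.2 + t) ^ 2) / 2) x.2 0 := by
      have := (((hasDerivAt_id (0 : ℝ)).const_add x.2).pow 2).const_add (x.1 ^ 2) |>.div_const 2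
      exact (this : HasDerivAt (fun t : ℝ => (x.1 ^ 2 + (x.2 + t) ^ 2) / 2) _ 0).congr_deriv
        (by simp)
    refine h1.congr_of_eventuallyEq (Eventually.of_forall fun t => ?_)
    simp
  exact h.lineDeriv

theorem PO2_fst (v : P) (x : P) : lineDeriv ℝ (fun x : P => x.1) x v = v.1 := by
  have h : HasLineDerivAt ℝ (fun x : P => x.1) v.1 x v := by
    unfold HasLineDerivAt
    have h1 : HasDerivAt (fun t : ℝ => x.1 + t * v.1) v.1 0 := by
      have := ((hasDerivAt_id (0 : ℝ)).mul_const v.1).const_add x.1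
      exact (this : HasDerivAt (fun t : ℝ => x.1 + t * v.1) _ 0).congr_deriv (by simp)
    refine h1.congr_of_eventuallyEq (Eventually.of_forall fun t => ?_)
    simp
  exact h.lineDeriv

theorem PO2_snd (v : P) (x : P) : lineDeriv ℝ (fun x : P => x.2) x v = v.2 := by
  have h : HasLineDerivAt ℝ (fun x : P => x.2) v.2 x v := by
    unfold HasLineDerivAt
    have h1 : HasDerivAt (fun t : ℝ => x.2 + t * v.2) v.2 0 := by
      have := ((hasDerivAt_id (0 : ℝ)).mul_const v.2).const_add x.2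
      exact (this : HasDerivAt (fun t : ℝ => x.2 + t * v.2) _ 0).congr_deriv (by simp)
    refine h1.congr_of_eventuallyEq (Eventually.of_forall fun t => ?_)
    simp
  exact h.lineDeriv

theorem PO2_lap {χ G : P → ℝ} (hχ : Cc χ) (hG : ContDiff ℝ ∞ G) (hGL : Lip G) :
    ∫ x, χ x * (d1 (d1 G) x + d2 (d2 G) x) = ∫ x, G x * (d1 (d1 χ) x + d2 (d2 χ) x) := by
  have h1 := B_smooth (f := PO2_q) hχ PO2_q_smooth hG
  have h2 := B_quad (f := PO2_q) hχ hGL univ isOpen_univ (subset_univ _) (fun x _ => rfl)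
  rw [h1] at h2
  have e : ∀ x, χ x * (d1 (d1 PO2_q) x * d2 (d2 G) x + d2 (d2 PO2_q) x * d1 (d1 G) x
      - 2 * (d1 (d2 PO2_q) x * d1 (d2 G) x)) = χ x * (d1 (d1 G) x + d2 (d2 G) x) := by
    intro x
    have a1 : d1 (d1 PO2_q) x = 1 := by rw [PO2_q_d1]; exact PO2_fst _ _
    have a2 : d2 (d2 PO2_q) x = 1 := by rw [PO2_q_d2]; exact PO2_snd _ _
    have a3 : d1 (d2 PO2_q) x = 0 := by rw [PO2_q_d2]; exact PO2_snd _ _
    rw [a1, a2, a3]; ring
  simp_rw [e] at h2
  linarith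

theorem PO2_exists_chi {φ : P → ℝ} (hφ : Cc φ) :
    ∃ χ : P → ℝ, Test χ ∧ ∀ x ∈ tsupport φ, χ x = 1 := by
  obtain ⟨R, hR⟩ := (hφ.2 : IsCompact (tsupport φ)).isBounded.subset_closedBall 0
  let β : ContDiffBump (0 : P) := ⟨max R 0 + 1, max R 0 + 2, by positivity, by linarith⟩
  refine ⟨β, ⟨⟨β.contDiff, β.hasCompactSupport⟩, fun x => β.nonneg⟩, fun x hx => ?_⟩
  apply β.one_of_mem_closedBall
  have := hR hx
  rw [Metric.mem_closedBall] at this ⊢
  exact this.trans (by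
    show R ≤ max R 0 + 1
    linarith [le_max_left R 0])

theorem PO2_bdd {F : P → ℝ} (hF : Continuous F) (hc : HasCompactSupport F) :
    ∃ M, ∀ x, |F x| ≤ M := by
  obtain ⟨M, hM⟩ := hc.exists_bound_of_continuous hF
  exact ⟨M, fun x => by simpa using hM x⟩

theorem B_bound {φ g : P → ℝ} (hφ : Cc φ) (hg : LC g) :
    ∃ C : ℝ, 0 ≤ C ∧ ∀ u : P → ℝ, Lip u → ∀ δ : ℝ, 0 ≤ δ → (∀ x ∈ tsupport φ, |u x| ≤ δ) →
      |B φ u g| ≤ C * δ := by
  obtain ⟨hgc, K, hK⟩ := hg
  have hgL : Lip g := ⟨K, hK⟩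
  obtain ⟨χ, hχ, hχ1⟩ := PO2_exists_chi hφ
  -- bounds for the second derivatives of φ
  have c11 : Continuous (d1 (d1 φ)) := (PO2_d1_smooth (PO2_d1_smooth hφ.1)).continuous
  have c22 : Continuous (d2 (d2 φ)) := (PO2_d2_smooth (PO2_d2_smooth hφ.1)).continuous
  have c12 : Continuous (d1 (d2 φ)) := (PO2_d1_smooth (PO2_d2_smooth hφ.1)).continuous
  obtain ⟨M1, hM1⟩ := PO2_bdd c11 (PO2_cs hφ.2 fun x hx => (PO2_second_zero hx).1)
  obtain ⟨M2, hM2⟩ := PO2_bdd c22 (PO2_cs hφ.2 fun x hx => (PO2_second_zero hx).2.1)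
  obtain ⟨M3, hM3⟩ := PO2_bdd c12 (PO2_cs hφ.2 fun x hx => (PO2_second_zero hx).2.2)
  set M : ℝ := max M1 (max M2 M3) with hM
  have hM0 : 0 ≤ M := (abs_nonneg _).trans ((hM1 0).trans (le_max_left _ _))
  have m1 : ∀ x, |d1 (d1 φ) x| ≤ M := fun x => (hM1 x).trans (le_max_left _ _)
  have m2 : ∀ x, |d2 (d2 φ) x| ≤ M := fun x =>
    (hM2 x).trans ((le_max_left _ _).trans (le_max_right _ _))
  have m3 : ∀ x, |d1 (d2 φ) x| ≤ M := fun x =>
    (hM3 x).trans ((le_max_right _ _).trans (le_max_right _ _))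
  -- the Laplacian of χ
  have hL1 : Continuous fun x => d1 (d1 χ) x + d2 (d2 χ) x :=
    (PO2_d1_smooth (PO2_d1_smooth hχ.1.1)).continuous.add
      (PO2_d2_smooth (PO2_d2_smooth hχ.1.1)).continuous
  have hL2 : HasCompactSupport fun x => d1 (d1 χ) x + d2 (d2 χ) x :=
    PO2_cs hχ.1.2 fun x hx => by
      rw [(PO2_second_zero hx).1, (PO2_second_zero hx).2.1, add_zero]
  have hgcont : Continuous g := hK.continuous
  have hI : Integrable fun x => (|g x| + K) * |d1 (d1 χ) x + d2 (d2 χ) x| := by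
    apply Continuous.integrable_of_hasCompactSupport
    · exact (hgcont.abs.add continuous_const).mul hL1.abs
    · apply HasCompactSupport.mul_left
      exact hL2.comp_left abs_zero
  set A : ℝ := ∫ x, (|g x| + K) * |d1 (d1 χ) x + d2 (d2 χ) x| with hA
  have hA0 : 0 ≤ A := integral_nonneg fun x => by positivity
  refine ⟨M * A, mul_nonneg hM0 hA0, fun u hu δ hδ huδ => ?_⟩
  have key : ∀ k : ℕ, |B φ u (moll k g)| ≤ M * A * δ := by
    intro k
    set G := moll k g with hGdef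
    have hG : ContDiff ℝ ∞ G := moll_smooth k hgL
    have hGL : Lip G := ⟨K, moll_lip k hK⟩
    have hGc : ConvexOn ℝ univ G := moll_convexOn k hgL hgc convex_univ (fun x _ => subset_univ _)
    rw [B_lip_smooth hφ hu hG]
    have hGcl : ∀ x, |G x| ≤ |g x| + K := by
      intro x
      have h1 := moll_close k hK x
      have h2 : (K : ℝ) / ((k : ℝ) + 1) ≤ K := by
        apply div_le_self K.coe_nonneg
        have : (0 : ℝ) ≤ k := Nat.cast_nonneg k
        linarith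
      have h3 : |G x| ≤ |g x| + |G x - g x| := by
        have := abs_add_le (g x) (G x - g x)
        simpa using this
      linarith
    have hpsd := fun x => hess_psd hG isOpen_univ hGc (mem_univ x)
    have hlapcont : Continuous fun x => d1 (d1 G) x + d2 (d2 G) x :=
      (PO2_d1_smooth (PO2_d1_smooth hG)).continuous.add
        (PO2_d2_smooth (PO2_d2_smooth hG)).continuous
    have hIχ : Integrable fun x => χ x * (d1 (d1 G) x + d2 (d2 G) x) := by
      apply Continuous.integrable_of_hasCompactSupport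
      · exact hχ.1.1.continuous.mul hlapcont
      · exact HasCompactSupport.mul_right hχ.1.2
    have hb : ∀ x, ‖u x * (d1 (d1 φ) x * d2 (d2 G) x + d2 (d2 φ) x * d1 (d1 G) x
        - 2 * (d1 (d2 φ) x * d1 (d2 G) x))‖ ≤ (2 * M * δ) * (χ x * (d1 (d1 G) x + d2 (d2 G) x)) := by
      intro x
      obtain ⟨p1, p2, p3⟩ := hpsd x
      by_cases hx : x ∈ tsupport φ
      · rw [Real.norm_eq_abs, abs_mul, hχ1 x hx, one_mul]
        have hq : |d1 (d2 G) x| ≤ (d1 (d1 G) x + d2 (d2 G) x) / 2 := by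
          apply abs_le_of_sq_le_sq _ (by linarith)
          nlinarith [sq_nonneg (d1 (d1 G) x - d2 (d2 G) x)]
        have h1 : |d1 (d1 φ) x * d2 (d2 G) x + d2 (d2 φ) x * d1 (d1 G) x
            - 2 * (d1 (d2 φ) x * d1 (d2 G) x)| ≤ 2 * M * (d1 (d1 G) x + d2 (d2 G) x) := by
          have t1 : |d1 (d1 φ) x * d2 (d2 G) x| ≤ M * d2 (d2 G) x := by
            rw [abs_mul, abs_of_nonneg p2]; exact mul_le_mul_of_nonneg_right (m1 x) p2
          have t2 : |d2 (d2 φ) x * d1 (d1 G) x| ≤ M * d1 (d1 G) x := by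
            rw [abs_mul, abs_of_nonneg p1]; exact mul_le_mul_of_nonneg_right (m2 x) p1
          have t3 : |d1 (d2 φ) x * d1 (d2 G) x| ≤ M * ((d1 (d1 G) x + d2 (d2 G) x) / 2) := by
            rw [abs_mul]
            exact mul_le_mul (m3 x) hq (abs_nonneg _) hM0
          have t4 := abs_sub (d1 (d1 φ) x * d2 (d2 G) x + d2 (d2 φ) x * d1 (d1 G) x)
            (2 * (d1 (d2 φ) x * d1 (d2 G) x))
          have t5 := abs_add_le (d1 (d1 φ) x * d2 (d2 G) x) (d2 (d2 φ) x * d1 (d1 G) x)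
          have t6 : |2 * (d1 (d2 φ) x * d1 (d2 G) x)| = 2 * |d1 (d2 φ) x * d1 (d2 G) x| := by
            rw [abs_mul, abs_two]
          linarith
        calc |u x| * |d1 (d1 φ) x * d2 (d2 G) x + d2 (d2 φ) x * d1 (d1 G) x
            - 2 * (d1 (d2 φ) x * d1 (d2 G) x)|
            ≤ δ * (2 * M * (d1 (d1 G) x + d2 (d2 G) x)) :=
              mul_le_mul (huδ x hx) h1 (abs_nonneg _) hδ
          _ = _ := by ring
      · obtain ⟨z1, z2, z3⟩ := PO2_second_zero hx
        rw [z1, z2, z3]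
        have : 0 ≤ (2 * M * δ) * (χ x * (d1 (d1 G) x + d2 (d2 G) x)) :=
          mul_nonneg (by positivity) (mul_nonneg (hχ.2 x) (by linarith))
        simpa using this
    have h1 : |∫ x, u x * (d1 (d1 φ) x * d2 (d2 G) x + d2 (d2 φ) x * d1 (d1 G) x
        - 2 * (d1 (d2 φ) x * d1 (d2 G) x))| ≤ ∫ x, (2 * M * δ) * (χ x * (d1 (d1 G) x + d2 (d2 G) x)) := by
      rw [← Real.norm_eq_abs]
      exact norm_integral_le_of_norm_le (hIχ.const_mul _) (Eventually.of_forall hb)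
    rw [integral_const_mul, PO2_lap hχ.1 hG hGL] at h1
    have h2 : ∫ x, G x * (d1 (d1 χ) x + d2 (d2 χ) x) ≤ A := by
      apply (le_abs_self _).trans
      rw [← Real.norm_eq_abs]
      apply norm_integral_le_of_norm_le hI
      refine Eventually.of_forall fun x => ?_
      rw [Real.norm_eq_abs, abs_mul]
      exact mul_le_mul_of_nonneg_right (hGcl x) (abs_nonneg _)
    rw [abs_mul, abs_of_pos (by norm_num : (0 : ℝ) < 1 / 2)]
    have h3 : (2 * M * δ) * ∫ x, G x * (d1 (d1 χ) x + d2 (d2 χ) x) ≤ (2 * M * δ) * A :=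
      mul_le_mul_of_nonneg_left h2 (by positivity)
    calc 1 / 2 * |∫ x, u x * (d1 (d1 φ) x * d2 (d2 G) x + d2 (d2 φ) x * d1 (d1 G) x
        - 2 * (d1 (d2 φ) x * d1 (d2 G) x))| ≤ 1 / 2 * ((2 * M * δ) * A) := by
          apply mul_le_mul_of_nonneg_left _ (by norm_num)
          exact h1.trans h3
      _ = M * A * δ := by ring
  have hlim := ((tendsto_B_moll hφ hu hgL).2).abs
  exact le_of_tendsto hlim (Eventually.of_forall key)

end Pool.Agent.helper41.Sch
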